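import Mathlib
import Pool.Agent.Helper278.CEMod
import Pool.Agent.H504R3.Bridge

/-!
Tracial ultrapowers of a tracial von Neumann algebra, as tracial von Neumann algebras.
-/

set_option autoImplicit false
set_option linter.unusedSectionVars false

open scoped InnerProductSpace ComplexOrder Topology BoundedContinuousFunction
open Filter
open Pool.Agent.Helper278 Pool.Agent.H504R3

namespace Pool.Agent.Q301.VN

/-- the trace of a TVN, bundled -/
def ts (R : TVN) : TracialState R.N := ⟨R.τ, R.normal, R.map_one, R.tracial, R.faithful⟩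

/-- `M` is the ultrapower of `R`, with the quotient map `θ`. -/
structure IsUP (R : TVN) (U : Ultrafilter ℕ) (M : TVN) (θ : (ℕ →ᵇ Elt R.N) →⋆ₐ[ℂ] M.E) : Prop where
  trace : ∀ x : ℕ →ᵇ Elt R.N, Tendsto (fun n => R.τ (x n)) U (𝓝 (M.τ (θ x)))
  lift : ∀ (r : ℕ) (y : M.E), M.opNorm y ≤ r → ∃ x : ℕ →ᵇ Elt R.N,
    (∀ n, R.opNorm (x n) ≤ r) ∧ θ x = y
  norm : ∀ (r : ℕ) (x : ℕ →ᵇ Elt R.N), (∀ n, R.opNorm (x n) ≤ r) → M.opNorm (θ x) ≤ r

theorem exists_up (R : TVN) (U : Ultrafilter ℕ) (hU : ∀ n, {n} ∉ U) :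
    ∃ (M : TVN) (θ : (ℕ →ᵇ Elt R.N) →⋆ₐ[ℂ] M.E), IsUP R U M θ := by
  obtain ⟨Q, _, _, _, _, π, σ, hπ⟩ := exists_ultrapower (ts R) U
  have h := sigma_trAlg hπ
  have hB := CE.ball_ultra hU hπ
  obtain ⟨K, _, _, _, j, hd, hj⟩ := CE.exists_gns h
  let e : Q →⋆ₐ[ℂ] Elt (CE.MM j) := CE.LmHom h hd hj hB
  have hsurj : Function.Surjective e := CE.LmHom_surj h hd hj hB
  have htau : ∀ a, CE.tauM j (e a) = sigmaL hπ a := fun a => CE.tauM_LmEquiv h hd hj hB a
  let φ : (CE.MM j).toStarSubalgebra →ₗ[ℂ] ℂ :=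
    { toFun := CE.tauM j
      map_add' := fun x y => by
        show ⟪j 1, (x : K →L[ℂ] K) (j 1) + (y : K →L[ℂ] K) (j 1)⟫_ℂ = _
        rw [inner_add_right]
        rfl
      map_smul' := fun c x => by
        show ⟪j 1, c • (x : K →L[ℂ] K) (j 1)⟫_ℂ = _
        rw [inner_smul_right]
        rfl }
  have hφ : ∀ a, φ (e a) = sigmaL hπ a := htau
  let M : TVN :=
    { H := K
      N := CE.MM j
      τ := φ
      map_one := by
        have : (1 : (CE.MM j).toStarSubalgebra) = e 1 := (map_one e).symm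
        rw [this, hφ]
        exact h.one
      tracial := fun x y => by
        obtain ⟨a, rfl⟩ := hsurj x
        obtain ⟨b, rfl⟩ := hsurj y
        rw [← map_mul, ← map_mul, hφ, hφ]
        exact h.comm a b
      faithful := fun x hx => by
        obtain ⟨a, rfl⟩ := hsurj x
        rw [← map_star, ← map_mul, hφ] at hx
        rw [h.faithful a hx, map_zero]
      normal := by
        refine ⟨fun k => if k = 0 then j 1 else 0, ?_, ?_⟩
        · refine summable_of_ne_finset_zero (s := {0}) ?_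
          intro k hk
          have : k ≠ 0 := by simpa using hk
          simp [this]
        · intro x
          rw [tsum_eq_single 0]
          · simp only [if_true]
            rfl
          · intro k hk
            simp [hk] }
  let θ : (ℕ →ᵇ Elt R.N) →⋆ₐ[ℂ] M.E := e.comp π
  have hθ : ∀ x, θ x = e (π x) := fun x => rfl
  refine ⟨M, θ, ?_, ?_, ?_⟩
  · intro x
    have h1 := hπ.trace x
    rw [hθ]
    show Tendsto _ _ (𝓝 (φ (e (π x))))
    rw [hφ]
    exact h1
  · intro r y hy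
    rcases Nat.eq_zero_or_pos r with hr | hr
    · subst hr
      refine ⟨0, fun n => ?_, ?_⟩
      · show ‖(0 : R.H →L[ℂ] R.H)‖ ≤ _
        simp
      · have h1 : ‖(y : K →L[ℂ] K)‖ ≤ 0 := hy.trans (le_of_eq Nat.cast_zero)
        have h2 : (y : K →L[ℂ] K) = 0 := norm_le_zero_iff.1 h1
        rw [map_zero]
        exact (Subtype.ext h2).symm
    · have hr' : (0 : ℝ) < r := by exact_mod_cast hr
      have hmem : ((r⁻¹ : ℝ) : ℂ) • (y : K →L[ℂ] K) ∈ CE.MM j := (((r⁻¹ : ℝ) : ℂ) • y).2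
      have hn : ‖((r⁻¹ : ℝ) : ℂ) • (y : K →L[ℂ] K)‖ ≤ 1 := by
        rw [norm_smul, Complex.norm_real, Real.norm_eq_abs, abs_of_pos (inv_pos.2 hr'),
          inv_mul_le_iff₀ hr', mul_one]
        exact hy
      obtain ⟨a, ⟨x, hx, rfl⟩, ha⟩ := CE.exists_of_mem h hd hj hB _ hmem hn
      refine ⟨((r : ℝ) : ℂ) • x, fun n => ?_, ?_⟩
      · show ‖((r : ℝ) : ℂ) • (x n : Elt R.N)‖ ≤ r
        rw [norm_smul, Complex.norm_real, Real.norm_eq_abs, abs_of_pos hr']
        have := mul_le_mul_of_nonneg_left (hx n) hr'.le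
        rwa [mul_one] at this
      · rw [map_smul, hθ]
        apply Subtype.ext
        show ((r : ℝ) : ℂ) • (CE.Lm j (π x)) = (y : K →L[ℂ] K)
        rw [← ha, smul_smul, ← Complex.ofReal_mul, mul_inv_cancel₀ hr'.ne', Complex.ofReal_one,
          one_smul]
  · intro r x hx
    rcases Nat.eq_zero_or_pos r with hr | hr
    · subst hr
      have : x = 0 := by
        ext1 n
        have h1 : ‖(x n : Elt R.N)‖ ≤ 0 := (hx n).trans (le_of_eq Nat.cast_zero)
        exact norm_le_zero_iff.1 h1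
      rw [this, map_zero]
      show ‖(0 : K →L[ℂ] K)‖ ≤ _
      simp
    · have hr' : (0 : ℝ) < r := by exact_mod_cast hr
      have hx' : ∀ n, ‖(((r⁻¹ : ℝ) : ℂ) • x) n‖ ≤ 1 := by
        intro n
        rw [BoundedContinuousFunction.smul_apply, norm_smul, Complex.norm_real, Real.norm_eq_abs,
          abs_of_pos (inv_pos.2 hr'), inv_mul_le_iff₀ hr', mul_one]
        exact hx n
      have h1 := CE.norm_Lm_le h hd hj hB (π (((r⁻¹ : ℝ) : ℂ) • x)) ⟨_, hx', rfl⟩
      have h2 : (θ x : K →L[ℂ] K) = ((r : ℝ) : ℂ) • CE.Lm j (π (((r⁻¹ : ℝ) : ℂ) • x)) := by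
        have h3 : θ (((r⁻¹ : ℝ) : ℂ) • x) = ((r⁻¹ : ℝ) : ℂ) • θ x := map_smul θ _ _
        have h4 : CE.Lm j (π (((r⁻¹ : ℝ) : ℂ) • x)) = ((r⁻¹ : ℝ) : ℂ) • (θ x : K →L[ℂ] K) :=
          congrArg Subtype.val h3
        rw [h4, smul_smul, ← Complex.ofReal_mul, mul_inv_cancel₀ hr'.ne', Complex.ofReal_one,
          one_smul]
      show ‖(θ x : K →L[ℂ] K)‖ ≤ r
      rw [h2, norm_smul, Complex.norm_real, Real.norm_eq_abs, abs_of_pos hr']
      have := mul_le_mul_of_nonneg_left h1 hr'.le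
      rwa [mul_one] at this

end Pool.Agent.Q301.VN
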