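import Mathlib
import Pool.Agent.Q301.VN.UP
import Pool.Agent.H504R3.ThB

/-!
Values of formulas are bounded on bounded sets; the theorem of Łoś.
-/

set_option autoImplicit false
set_option linter.unusedSectionVars false

open scoped InnerProductSpace ComplexOrder Topology BoundedContinuousFunction
open Filter
open Pool.Agent.Helper278
open Pool.Agent.H504R3 hiding Tm Fm
open Pool.Agent.H504R3.S (str Str Tm Fm tval)

namespace Pool.Agent.Q301.VN

theorem opNorm_add (M : TVN) (x y : M.E) : M.opNorm (x + y) ≤ M.opNorm x + M.opNorm y :=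
  norm_add_le (x : M.H →L[ℂ] M.H) y

theorem opNorm_mul (M : TVN) (x y : M.E) : M.opNorm (x * y) ≤ M.opNorm x * M.opNorm y :=
  norm_mul_le (x : M.H →L[ℂ] M.H) y

theorem opNorm_nonneg (M : TVN) (x : M.E) : 0 ≤ M.opNorm x := norm_nonneg (x : M.H →L[ℂ] M.H)

theorem opNorm_one_le (M : TVN) : M.opNorm 1 ≤ 1 := ContinuousLinearMap.norm_id_le

theorem opNorm_star (M : TVN) (x : M.E) : M.opNorm (star x) = M.opNorm x :=
  norm_star (x : M.H →L[ℂ] M.H)

theorem opNorm_smul (M : TVN) (c : ℂ) (x : M.E) : M.opNorm (c • x) = ‖c‖ * M.opNorm x :=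
  norm_smul c (x : M.H →L[ℂ] M.H)

theorem norm_tr_le (M : TVN) (x : M.E) : ‖M.τ x‖ ≤ M.opNorm x := by
  have h1 := M.trAlg.cauchy' x 1
  rw [mul_one, n2_one M.trAlg, mul_one] at h1
  have h2 := (M.n2_mul_le x 1).1
  rw [mul_one, n2_one M.trAlg, mul_one] at h2
  exact h1.trans h2

theorem tval_bdd {V : Type} (t : Tm V) (R : ℝ) : ∃ C : ℝ, 0 ≤ C ∧
    ∀ (M : TVN) (x : V → M.E), (∀ v, M.opNorm (x v) ≤ R) → M.opNorm (tval M x t) ≤ C := by
  induction t with
  | var v => exact ⟨|R|, abs_nonneg R, fun M x h => (h v).trans (le_abs_self R)⟩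
  | one => exact ⟨1, zero_le_one, fun M x h => opNorm_one_le M⟩
  | add s t hs ht =>
    obtain ⟨C, hC, hs⟩ := hs
    obtain ⟨D, hD, ht⟩ := ht
    exact ⟨C + D, by positivity, fun M x h =>
      (opNorm_add M _ _).trans (add_le_add (hs M x h) (ht M x h))⟩
  | mul s t hs ht =>
    obtain ⟨C, hC, hs⟩ := hs
    obtain ⟨D, hD, ht⟩ := ht
    exact ⟨C * D, by positivity, fun M x h =>
      (opNorm_mul M _ _).trans (mul_le_mul (hs M x h) (ht M x h) (opNorm_nonneg M _) hC)⟩
  | adj s hs =>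
    obtain ⟨C, hC, hs⟩ := hs
    exact ⟨C, hC, fun M x h => (opNorm_star M _).le.trans (hs M x h)⟩
  | scal c s hs =>
    obtain ⟨C, hC, hs⟩ := hs
    exact ⟨‖c‖ * C, by positivity, fun M x h =>
      (opNorm_smul M c _).le.trans (mul_le_mul_of_nonneg_left (hs M x h) (norm_nonneg c))⟩

theorem fval_bdd {n : ℕ} (φ : Fm n) : ∀ R : ℝ, ∃ C : ℝ, 0 ≤ C ∧
    ∀ (M : TVN) (x : Fin n → M.E), (∀ v, M.opNorm (x v) ≤ R) → |φ.val (str M) x| ≤ C := by
  induction φ with
  | re t =>
    intro R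
    obtain ⟨C, hC, h⟩ := tval_bdd t R
    exact ⟨C, hC, fun M x hx =>
      (Complex.abs_re_le_norm _).trans ((norm_tr_le M _).trans (h M x hx))⟩
  | im t =>
    intro R
    obtain ⟨C, hC, h⟩ := tval_bdd t R
    exact ⟨C, hC, fun M x hx =>
      (Complex.abs_im_le_norm _).trans ((norm_tr_le M _).trans (h M x hx))⟩
  | nrm t =>
    intro R
    obtain ⟨C, hC, h⟩ := tval_bdd t R
    refine ⟨C, hC, fun M x hx => ?_⟩
    have h0 := h M x hx
    have h2 := (M.n2_mul_le (tval M x t) 1).1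
    rw [mul_one, n2_one M.trAlg, mul_one] at h2
    show |n2 M.τ (tval M x t)| ≤ C
    rw [abs_of_nonneg (n2_nonneg _ _)]
    exact h2.trans h0
  | @conn n k u φ ih =>
    intro R
    choose C hC h using fun i => ih i R
    have hK : IsCompact (Set.univ.pi fun i : Fin k => Set.Icc (-C i) (C i)) :=
      isCompact_univ_pi fun i => isCompact_Icc
    obtain ⟨D, hD⟩ := hK.exists_bound_of_continuousOn u.continuous.continuousOn
    refine ⟨max D 0, le_max_right _ _, fun M x hx => ?_⟩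
    show |u fun i => (φ i).val (str M) x| ≤ _
    refine (hD (fun i => (φ i).val (str M) x) ?_).trans (le_max_left _ _)
    intro i _
    exact abs_le.1 (h i M x hx)
  | sup r φ ih =>
    intro R
    obtain ⟨C, hC, h⟩ := ih (max R r)
    refine ⟨C, hC, fun M x hx => ?_⟩
    show |⨆ y : (str M).Ball r, φ.val (str M) (Fin.cons y.1 x)| ≤ C
    have := S.ball_ne M r
    have hb : ∀ y : (str M).Ball r, |φ.val (str M) (Fin.cons y.1 x)| ≤ C := by
      intro y
      refine h M _ fun i => ?_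
      refine Fin.cases ?_ (fun j => ?_) i
      · exact y.2.trans (le_max_right _ _)
      · exact (hx j).trans (le_max_left _ _)
    rw [abs_le]
    constructor
    · refine (abs_le.1 (hb (Classical.arbitrary _))).1.trans
        (le_ciSup (f := fun y : (str M).Ball r => φ.val (str M) (Fin.cons y.1 x)) ⟨C, ?_⟩ _)
      rintro _ ⟨y, rfl⟩
      exact (abs_le.1 (hb y)).2
    · exact ciSup_le fun y => (abs_le.1 (hb y)).2
  | inf r φ ih =>
    intro R
    obtain ⟨C, hC, h⟩ := ih (max R r)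
    refine ⟨C, hC, fun M x hx => ?_⟩
    show |⨅ y : (str M).Ball r, φ.val (str M) (Fin.cons y.1 x)| ≤ C
    have := S.ball_ne M r
    have hb : ∀ y : (str M).Ball r, |φ.val (str M) (Fin.cons y.1 x)| ≤ C := by
      intro y
      refine h M _ fun i => ?_
      refine Fin.cases ?_ (fun j => ?_) i
      · exact y.2.trans (le_max_right _ _)
      · exact (hx j).trans (le_max_left _ _)
    rw [abs_le]
    constructor
    · exact le_ciInf fun y => (abs_le.1 (hb y)).1
    · refine (ciInf_le (f := fun y : (str M).Ball r => φ.val (str M) (Fin.cons y.1 x)) ⟨-C, ?_⟩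
        (Classical.arbitrary _)).trans (abs_le.1 (hb (Classical.arbitrary _))).2
      rintro _ ⟨y, rfl⟩
      exact (abs_le.1 (hb y)).1

/-- the values at the tuples of the ball -/
theorem ball_vals {n : ℕ} (φ : Fm (n + 1)) (r : ℕ) (R : ℝ) : ∃ C : ℝ, ∀ (M : TVN) (x : Fin n → M.E),
    (∀ v, M.opNorm (x v) ≤ R) → ∀ y : (str M).Ball r, |φ.val (str M) (Fin.cons y.1 x)| ≤ C := by
  obtain ⟨C, hC, h⟩ := fval_bdd φ (max R r)
  refine ⟨C, fun M x hx y => h M _ fun i => ?_⟩
  refine Fin.cases ?_ (fun j => ?_) i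
  · exact y.2.trans (le_max_right _ _)
  · exact (hx j).trans (le_max_left _ _)

section los

variable {R M : TVN} {U : Ultrafilter ℕ} {θ : (ℕ →ᵇ Elt R.N) →⋆ₐ[ℂ] M.E} (h : IsUP R U M θ)

theorem los_tm {V : Type} (x : V → (ℕ →ᵇ Elt R.N)) (t : Tm V) :
    ∃ X : ℕ →ᵇ Elt R.N, (∀ k, X k = tval R (fun v => x v k) t) ∧
      θ X = tval M (fun v => θ (x v)) t := by
  induction t with
  | var v => exact ⟨x v, fun k => rfl, rfl⟩
  | one => exact ⟨1, fun k => rfl, map_one θ⟩
  | add s t hs ht =>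
    obtain ⟨X, hX, hX'⟩ := hs
    obtain ⟨Y, hY, hY'⟩ := ht
    refine ⟨X + Y, fun k => ?_, ?_⟩
    · show X k + Y k = tval R _ s + tval R _ t
      rw [hX, hY]
    · rw [map_add, hX', hY']
      rfl
  | mul s t hs ht =>
    obtain ⟨X, hX, hX'⟩ := hs
    obtain ⟨Y, hY, hY'⟩ := ht
    refine ⟨X * Y, fun k => ?_, ?_⟩
    · show X k * Y k = tval R _ s * tval R _ t
      rw [hX, hY]
    · rw [map_mul, hX', hY']
      rfl
  | adj s hs =>
    obtain ⟨X, hX, hX'⟩ := hs
    refine ⟨star X, fun k => ?_, ?_⟩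
    · show star (X k) = star (tval R _ s)
      rw [hX]
    · rw [map_star, hX']
      rfl
  | scal c s hs =>
    obtain ⟨X, hX, hX'⟩ := hs
    refine ⟨c • X, fun k => ?_, ?_⟩
    · show c • X k = c • tval R _ s
      rw [hX]
    · rw [map_smul, hX']
      rfl

include h in
theorem tendsto_norm2 (x : ℕ →ᵇ Elt R.N) :
    Tendsto (fun k => R.norm2 (x k)) U (𝓝 (M.norm2 (θ x))) := by
  have h1 := h.trace (star x * x)
  rw [map_mul, map_star] at h1
  exact (Real.continuous_sqrt.tendsto _).comp ((Complex.continuous_re.tendsto _).comp h1)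

theorem norm_app (x : ℕ →ᵇ Elt R.N) (k : ℕ) : R.opNorm (x k) ≤ ‖x‖ := x.norm_coe_le_norm k

theorem opNorm_theta (h : IsUP R U M θ) (x : ℕ →ᵇ Elt R.N) : M.opNorm (θ x) ≤ ⌈‖x‖⌉₊ :=
  h.norm _ _ fun n => (norm_app x n).trans (Nat.le_ceil _)

theorem cons_app {n : ℕ} (x : Fin n → (ℕ →ᵇ Elt R.N)) (Y : ℕ →ᵇ Elt R.N) (k : ℕ) :
    (fun i => (Fin.cons Y x : Fin (n + 1) → (ℕ →ᵇ Elt R.N)) i k) =
      Fin.cons (Y k) (fun i => x i k) := by
  funext i
  refine Fin.cases ?_ (fun j => ?_) i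
  · rfl
  · rfl

theorem cons_theta {n : ℕ} (x : Fin n → (ℕ →ᵇ Elt R.N)) (Y : ℕ →ᵇ Elt R.N) :
    (fun i => θ ((Fin.cons Y x : Fin (n + 1) → (ℕ →ᵇ Elt R.N)) i)) =
      Fin.cons (θ Y) (fun i => θ (x i)) := by
  funext i
  refine Fin.cases ?_ (fun j => ?_) i
  · rfl
  · rfl

/-- a bounded sequence -/
noncomputable def bseq {r : ℕ} (Y : ℕ → (str R).Ball r) : ℕ →ᵇ Elt R.N :=
  BoundedContinuousFunction.ofNormedAddCommGroup (fun k => (Y k).1) continuous_of_discreteTopology r
    (fun k => (Y k).2)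

include h in
/-- Łoś -/
theorem los {n : ℕ} (φ : Fm n) : ∀ x : Fin n → (ℕ →ᵇ Elt R.N),
    Tendsto (fun k => φ.val (str R) (fun i => x i k)) U (𝓝 (φ.val (str M) (fun i => θ (x i)))) := by
  induction φ with
  | re t =>
    intro x
    obtain ⟨X, hX, hX'⟩ := los_tm (θ := θ) x t
    have h1 := (Complex.continuous_re.tendsto _).comp (h.trace X)
    have e : (fun k => (Fm.re t).val (str R) (fun i => x i k)) = Complex.re ∘ fun k => R.τ (X k) := by
      funext k
      show (R.τ (tval R (fun i => x i k) t)).re = _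
      rw [← hX]; rfl
    rw [e]
    show Tendsto _ _ (𝓝 (M.τ (tval M (fun i => θ (x i)) t)).re)
    rw [← hX']
    exact h1
  | im t =>
    intro x
    obtain ⟨X, hX, hX'⟩ := los_tm (θ := θ) x t
    have h1 := (Complex.continuous_im.tendsto _).comp (h.trace X)
    have e : (fun k => (Fm.im t).val (str R) (fun i => x i k)) = Complex.im ∘ fun k => R.τ (X k) := by
      funext k
      show (R.τ (tval R (fun i => x i k) t)).im = _
      rw [← hX]; rfl
    rw [e]
    show Tendsto _ _ (𝓝 (M.τ (tval M (fun i => θ (x i)) t)).im)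
    rw [← hX']
    exact h1
  | nrm t =>
    intro x
    obtain ⟨X, hX, hX'⟩ := los_tm (θ := θ) x t
    have h1 := tendsto_norm2 h X
    have e : (fun k => (Fm.nrm t).val (str R) (fun i => x i k)) = fun k => R.norm2 (X k) := by
      funext k
      show R.norm2 (tval R (fun i => x i k) t) = _
      rw [← hX]
    rw [e]
    show Tendsto _ _ (𝓝 (M.norm2 (tval M (fun i => θ (x i)) t)))
    rw [← hX']
    exact h1
  | @conn n k u φ ih =>
    intro x
    have h1 : Tendsto (fun k => fun i => (φ i).val (str R) (fun i => x i k)) U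
        (𝓝 (fun i => (φ i).val (str M) (fun i => θ (x i)))) := by
      rw [tendsto_pi_nhds]
      exact fun i => ih i x
    exact (u.continuous.tendsto _).comp h1
  | @sup n r φ ih =>
    intro x
    obtain ⟨C, hC⟩ := ball_vals φ r (∑ i, (⌈‖x i‖⌉₊ : ℝ))
    have hx : ∀ k i, R.opNorm (x i k) ≤ ∑ i, (⌈‖x i‖⌉₊ : ℝ) := fun k i =>
      ((norm_app (x i) k).trans (Nat.le_ceil _)).trans
        (Finset.single_le_sum (f := fun i => (⌈‖x i‖⌉₊ : ℝ)) (fun i _ => Nat.cast_nonneg _)
          (Finset.mem_univ i))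
    have hx' : ∀ i, M.opNorm (θ (x i)) ≤ ∑ i, (⌈‖x i‖⌉₊ : ℝ) := fun i =>
      (opNorm_theta h (x i)).trans
        (Finset.single_le_sum (f := fun i => (⌈‖x i‖⌉₊ : ℝ)) (fun i _ => Nat.cast_nonneg _)
          (Finset.mem_univ i))
    have bR : ∀ k, BddAbove (Set.range fun y : (str R).Ball r =>
        φ.val (str R) (Fin.cons y.1 (fun i => x i k))) := fun k =>
      ⟨C, by rintro _ ⟨y, rfl⟩; exact (abs_le.1 (hC R _ (hx k) y)).2⟩
    have bM : BddAbove (Set.range fun y : (str M).Ball r =>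
        φ.val (str M) (Fin.cons y.1 (fun i => θ (x i)))) :=
      ⟨C, by rintro _ ⟨y, rfl⟩; exact (abs_le.1 (hC M _ hx' y)).2⟩
    have nR := S.ball_ne R r
    have nM := S.ball_ne M r
    show Tendsto (fun k => ⨆ y : (str R).Ball r, φ.val (str R) (Fin.cons y.1 (fun i => x i k))) U
      (𝓝 (⨆ y : (str M).Ball r, φ.val (str M) (Fin.cons y.1 (fun i => θ (x i)))))
    rw [tendsto_order]
    constructor
    · intro a ha
      obtain ⟨y, hy⟩ := exists_lt_of_lt_ciSup ha
      obtain ⟨Y, hY, hYy⟩ := h.lift r y.1 y.2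
      have h1 := ih (Fin.cons Y x)
      rw [cons_theta, hYy] at h1
      have h2 := (tendsto_order.1 h1).1 a hy
      filter_upwards [h2] with k hk
      rw [cons_app] at hk
      exact hk.trans_le (le_ciSup (bR k) ⟨Y k, hY k⟩)
    · intro a ha
      have h0 : ∀ k, ∃ y : (str R).Ball r,
          (⨆ y : (str R).Ball r, φ.val (str R) (Fin.cons y.1 (fun i => x i k))) -
            (a - ⨆ y : (str M).Ball r, φ.val (str M) (Fin.cons y.1 (fun i => θ (x i)))) / 2 <
          φ.val (str R) (Fin.cons y.1 (fun i => x i k)) := fun k =>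
        exists_lt_of_lt_ciSup (sub_lt_self _ (by linarith))
      choose Y hY using h0
      have h1 := ih (Fin.cons (bseq Y) x)
      have h4 : M.opNorm (θ (bseq Y)) ≤ r := h.norm r _ fun k => (Y k).2
      have h3 := le_ciSup bM ⟨θ (bseq Y), h4⟩
      rw [cons_theta] at h1
      have h2 := (tendsto_order.1 h1).2
        (((⨆ y : (str M).Ball r, φ.val (str M) (Fin.cons y.1 (fun i => θ (x i)))) + a) / 2)
        (lt_of_le_of_lt h3 (by linarith))
      filter_upwards [h2] with k hk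
      rw [cons_app] at hk
      have h5 := hY k
      have hk' : φ.val (str R) (Fin.cons (Y k).1 (fun i => x i k)) <
        ((⨆ y : (str M).Ball r, φ.val (str M) (Fin.cons y.1 (fun i => θ (x i)))) + a) / 2 := hk
      linarith
  | @inf n r φ ih =>
    intro x
    obtain ⟨C, hC⟩ := ball_vals φ r (∑ i, (⌈‖x i‖⌉₊ : ℝ))
    have hx : ∀ k i, R.opNorm (x i k) ≤ ∑ i, (⌈‖x i‖⌉₊ : ℝ) := fun k i =>
      ((norm_app (x i) k).trans (Nat.le_ceil _)).trans
        (Finset.single_le_sum (f := fun i => (⌈‖x i‖⌉₊ : ℝ)) (fun i _ => Nat.cast_nonneg _)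
          (Finset.mem_univ i))
    have hx' : ∀ i, M.opNorm (θ (x i)) ≤ ∑ i, (⌈‖x i‖⌉₊ : ℝ) := fun i =>
      (opNorm_theta h (x i)).trans
        (Finset.single_le_sum (f := fun i => (⌈‖x i‖⌉₊ : ℝ)) (fun i _ => Nat.cast_nonneg _)
          (Finset.mem_univ i))
    have bR : ∀ k, BddBelow (Set.range fun y : (str R).Ball r =>
        φ.val (str R) (Fin.cons y.1 (fun i => x i k))) := fun k =>
      ⟨-C, by rintro _ ⟨y, rfl⟩; exact (abs_le.1 (hC R _ (hx k) y)).1⟩
    have bM : BddBelow (Set.range fun y : (str M).Ball r =>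
        φ.val (str M) (Fin.cons y.1 (fun i => θ (x i)))) :=
      ⟨-C, by rintro _ ⟨y, rfl⟩; exact (abs_le.1 (hC M _ hx' y)).1⟩
    have nR := S.ball_ne R r
    have nM := S.ball_ne M r
    show Tendsto (fun k => ⨅ y : (str R).Ball r, φ.val (str R) (Fin.cons y.1 (fun i => x i k))) U
      (𝓝 (⨅ y : (str M).Ball r, φ.val (str M) (Fin.cons y.1 (fun i => θ (x i)))))
    rw [tendsto_order]
    constructor
    · intro a ha
      have h0 : ∀ k, ∃ y : (str R).Ball r,
          φ.val (str R) (Fin.cons y.1 (fun i => x i k)) <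
          (⨅ y : (str R).Ball r, φ.val (str R) (Fin.cons y.1 (fun i => x i k))) +
            ((⨅ y : (str M).Ball r, φ.val (str M) (Fin.cons y.1 (fun i => θ (x i)))) - a) / 2 :=
        fun k => exists_lt_of_ciInf_lt (lt_add_of_pos_right _ (by linarith))
      choose Y hY using h0
      have h1 := ih (Fin.cons (bseq Y) x)
      have h4 : M.opNorm (θ (bseq Y)) ≤ r := h.norm r _ fun k => (Y k).2
      have h3 := ciInf_le bM ⟨θ (bseq Y), h4⟩
      rw [cons_theta] at h1
      have h2 := (tendsto_order.1 h1).1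
        (((⨅ y : (str M).Ball r, φ.val (str M) (Fin.cons y.1 (fun i => θ (x i)))) + a) / 2)
        (lt_of_lt_of_le (by linarith) h3)
      filter_upwards [h2] with k hk
      rw [cons_app] at hk
      have h5 := hY k
      have hk' : ((⨅ y : (str M).Ball r, φ.val (str M) (Fin.cons y.1 (fun i => θ (x i)))) + a) / 2 <
        φ.val (str R) (Fin.cons (Y k).1 (fun i => x i k)) := hk
      linarith
    · intro a ha
      obtain ⟨y, hy⟩ := exists_lt_of_ciInf_lt ha
      obtain ⟨Y, hY, hYy⟩ := h.lift r y.1 y.2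
      have h1 := ih (Fin.cons Y x)
      rw [cons_theta, hYy] at h1
      have h2 := (tendsto_order.1 h1).2 a hy
      filter_upwards [h2] with k hk
      rw [cons_app] at hk
      exact (ciInf_le (bR k) ⟨Y k, hY k⟩).trans_lt hk

include h in
theorem elemEq_up : (str R).ElemEq (str M) := by
  intro φ
  have h1 := los h φ Fin.elim0
  have e1 : (fun k : ℕ => φ.val (str R) (fun i => (Fin.elim0 i : ℕ →ᵇ Elt R.N) k)) =
      fun _ => φ.val (str R) Fin.elim0 := by
    funext k
    congr 1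
    funext i
    exact i.elim0
  have e2 : (fun i => θ (Fin.elim0 i : ℕ →ᵇ Elt R.N)) = (Fin.elim0 : Fin 0 → M.E) := by
    funext i
    exact i.elim0
  rw [e1, e2] at h1
  exact tendsto_nhds_unique tendsto_const_nhds h1

end los

end Pool.Agent.Q301.VN
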